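import Pool.Agent.helper54.MZ.Spec1
import Pool.Agent.helper30.MP.TR

/-!
# Module mz:CYE (helper98): Phase 1 data for every cylinder
-/

set_option autoImplicit false

open Complex Metric Set Filter Topology MeasureTheory

noncomputable section

namespace MZS

open MPS

theorem CYE_exp_mem (a : ℝ) (w : ℂ) (hw : w ∈ HP a) :
    Complex.exp w ∈ ball (0 : ℂ) (Real.exp (-a)) := by
  rw [mem_ball_zero_iff, Complex.norm_exp, Real.exp_lt_exp]
  exact hw

/-- the rotation coordinate of a Phase 1 system with `k` levels. -/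
theorem CYE_pe (hP1U : P1U_stmt) (hPNX : PNX_stmt) (hNH : NH_stmt) (n k : ℕ) [NeZero k] (c : ℂ)
    (b g : ZMod k → ℂ) (ψ : ZMod k → ℂ → ℂ) (R ε δ : ℝ) (A : ℕ → ℝ) (G : ℕ → ℂ → ℂ) (P : ℂ → ℂ)
    (hH : H1 n k c b g ψ R ε δ A G k) (hk1 : 1 ≤ k)
    (hPd : DifferentiableOn ℂ P (ball 0 (Real.exp (-(A k + δ / 8))))) (hP0 : P 0 = 0)
    (hPb : ∀ u ∈ ball (0 : ℂ) (Real.exp (-(A k + δ / 8))),
      ‖P u‖ ≤ δ / 32 ∧ ‖u * deriv P u‖ ≤ 1 / 4)
    (hPt : ∀ w ∈ HP (A k + δ / 8),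
      (1 + Complex.exp w * deriv P (Complex.exp w)) ^ 2 = tau b g (GW G) k w) :
    ∀ w ∈ HP (A k + δ / 4), (w - Complex.log (rho n b) + P (Complex.exp w)).re < 0 ∧
      hat (ψ 0) (w - Complex.log (rho n b) + P (Complex.exp w)) = GW G k w := by
  obtain ⟨-, -, -, -, hderk⟩ := hP1U n k c b g ψ R ε δ A G k hH
  have hkk : (-(k : ZMod k)) = 0 := by
    rw [ZMod.natCast_self, neg_zero]
  have hmx := hH.su.mx 0
  have hd1 : deriv (ψ 0) 0 ≠ 0 := hmx.pn.der
  have hδ := hH.d0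
  have hrho : rho n b ≠ 0 := by
    intro h
    have := hH.su.rho1
    rw [h, norm_zero] at this
    linarith
  set κ : ℂ := -Complex.log (rho n b) with hκdef
  have hκ : Complex.exp κ = deriv (G k) 0 / deriv (ψ 0) 0 := by
    rw [hκdef, hderk rfl, Complex.exp_neg, Complex.exp_log hrho]
    field_simp
  obtain ⟨ψ', hpn, hdψ, hψ⟩ := hPNX n k c b g ψ R ε δ A G k P κ hH hk1 hPd hP0 hPb hPt
  rw [hkk] at hpn
  set r' : ℝ := Real.exp (κ.re - (A k + δ / 8) - δ / 32) with hr'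
  have hdeq : deriv ψ' 0 = deriv (ψ 0) 0 := by
    have hG0 : deriv (G k) 0 ≠ 0 := by
      rw [hderk rfl]
      exact div_ne_zero hd1 hrho
    rw [hκ] at hdψ
    have h1 : deriv ψ' 0 * (deriv (G k) 0 / deriv (ψ 0) 0) = deriv (G k) 0 := hdψ
    field_simp at h1
    exact h1
  have hr1 : r' ≤ 1 := by
    by_contra hcon
    push Not at hcon
    exact hmx.mx r' hcon ψ' hpn hdeq
  have hexp0 : κ.re - (A k + δ / 8) - δ / 32 ≤ 0 := by
    rw [hr', Real.exp_le_one_iff] at hr1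
    exact hr1
  have hEq : EqOn ψ' (ψ 0) (ball 0 r') := by
    have h1 := (hNH k b g 0 ψ' r' hpn).2.2.1 (ψ 0) 1 hmx.pn hdeq
    rw [min_eq_left hr1] at h1
    exact h1
  intro w hw
  have hw1 : w.re < -(A k + δ / 4) := hw
  have hw' : w ∈ HP (A k + δ / 8) := by
    show w.re < -(A k + δ / 8)
    linarith
  have hre : (w + κ + P (Complex.exp w)).re < κ.re - (A k + δ / 8) - δ / 32 := by
    have h2 := (hPb _ (CYE_exp_mem _ w hw')).1
    have h3 := (Complex.abs_re_le_norm (P (Complex.exp w))).trans h2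
    have h4 := (abs_le.1 h3).2
    rw [Complex.add_re, Complex.add_re]
    linarith
  have he : Complex.exp (w + κ + P (Complex.exp w)) =
      Complex.exp w * Complex.exp (κ + P (Complex.exp w)) := by
    rw [← Complex.exp_add, add_assoc]
  have hmem : Complex.exp w * Complex.exp (κ + P (Complex.exp w)) ∈ ball (0 : ℂ) r' := by
    rw [← he, mem_ball_zero_iff, Complex.norm_exp, hr', Real.exp_lt_exp]
    exact hre
  have h1 := hψ _ (CYE_exp_mem _ w hw') hmem
  have hww : w - Complex.log (rho n b) + P (Complex.exp w) = w + κ + P (Complex.exp w) := by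
    rw [hκdef]
    ring
  rw [hww]
  refine ⟨hre.trans_le hexp0, ?_⟩
  show ψ 0 (Complex.exp (w + κ + P (Complex.exp w))) = G k (Complex.exp w)
  rw [he, ← hEq hmem, h1]

theorem CYE_tau {k : ℕ} [NeZero k] (b g : ZMod k → ℂ) (i : ZMod k) (G : ℕ → ℂ → ℂ) (q : ℕ)
    (w : ℂ) : tau (fun j => b (i + j)) (fun j => g (i + j)) G q w = tau b g G q w := by
  unfold tau
  rw [TR_BB]

theorem CYE_lev {k : ℕ} [NeZero k] (n : ℕ) (c : ℂ) (b g : ZMod k → ℂ) (i : ZMod k)
    (G : ℕ → ℂ → ℂ) (q : ℕ) (w : ℂ) :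
    lev n c (fun j => b (i + j)) (fun j => g (i + j)) G q w = lev n c b g G q w := by
  unfold lev bet eef
  simp only [TR_BB, TR_er]

theorem CYE_lev_nonneg {k : ℕ} [NeZero k] (n : ℕ) (c : ℂ) (b g : ZMod k → ℂ)
    (G : ℕ → ℂ → ℂ) (q : ℕ) (w : ℂ) : 0 ≤ lev n c b g G q w := by
  unfold lev
  positivity

theorem CYE_num {ρ₁ ε : ℝ} (h0 : 0 < ρ₁) (h1 : 16 * ρ₁ ≤ 1) (he : ε ≤ ρ₁ ^ 3 / 4 ^ 200) :
    ε ≤ (ρ₁ / 64) ^ 3 / 10 ^ 16 ∧ ε ≤ (ρ₁ / 64) ^ 2 / 1024 ∧ 4 * ε ≤ (ρ₁ / 64) ^ 2 ∧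
      4 * ε ≤ 1 / 4 := by
  have h3 : (0 : ℝ) < ρ₁ ^ 3 := by positivity
  have hA : ρ₁ ^ 3 / 4 ^ 200 ≤ (ρ₁ / 64) ^ 3 / 10 ^ 16 := by
    have : (64 : ℝ) ^ 3 * 10 ^ 16 ≤ 4 ^ 200 := by norm_num
    rw [div_pow, div_div]
    exact div_le_div_of_nonneg_left h3.le (by positivity) this
  have hE := he.trans hA
  set δ := ρ₁ / 64 with hδ
  have hd0 : 0 < δ := by positivity
  have hd1 : δ ≤ 1 / 1024 := by
    rw [hδ]
    linarith
  have hd2 : 0 < δ ^ 2 := by positivity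
  have hd3 : δ ^ 3 ≤ δ ^ 2 / 1024 := by
    have : δ ^ 3 = δ ^ 2 * δ := by ring
    rw [this]
    nlinarith
  have hd4 : δ ^ 3 / 10 ^ 16 ≤ δ ^ 3 / 10 := by
    refine div_le_div_of_nonneg_left (by positivity) (by positivity) (by norm_num)
  have hd5 : δ ^ 2 ≤ 1 := by nlinarith
  refine ⟨hE, ?_, ?_, ?_⟩
  · linarith
  · linarith
  · linarith

theorem CYE (hPH1 : PH1_stmt) (hP1A : P1A_stmt) (hP1U : P1U_stmt) (hPT1 : PT1_stmt)
    (hLEI : LEI_stmt) (hPHI : PHI_stmt) (hPNX : PNX_stmt) (hNH : NH_stmt) : CYE_stmt := by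
  intro n k _ c b g ψ R ε ρ₁ hST i
  obtain ⟨hsu, -, -, -⟩ := TR n k c b g ψ R ε i hST.su
  obtain ⟨hn1, hn2, hn3, hn4⟩ := CYE_num hST.r0 hST.r1 hST.he
  set δ : ℝ := ρ₁ / 64 with hδdef
  have hδ0 : 0 < δ := by
    have := hST.r0
    positivity
  have hδ1 : δ ≤ 1 / 20 := by
    have := hST.r1
    rw [hδdef]
    linarith
  have hi0 : (fun j => ψ (i + j)) 0 = ψ i := by
    show ψ (i + 0) = ψ i
    rw [add_zero]
  have hmp : MapsTo ((fun j => ψ (i + j)) 0) (ball 0 (Real.exp (-δ))) (ball 0 R) := by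
    rw [hi0]
    exact hST.mp i
  obtain ⟨G, hsys⟩ := hPH1 n k c _ _ _ R ε δ hsu hδ0 hδ1 hmp hn1
  have hH : H1 n k c (fun j => b (i + j)) (fun j => g (i + j)) (fun j => ψ (i + j)) R ε δ
      (fun _ => 3 * δ) G k := ⟨hsu, hδ0, hδ1, hmp, hsys, le_rfl⟩
  have hk1 : 1 ≤ k := by
    have := hST.su.hk
    omega
  obtain ⟨P, hPd, hP0, hPb, hPt⟩ := hPHI n k c _ _ _ R ε δ _ G k hH hk1 hn2
  have hpe := CYE_pe hP1U hPNX hNH n k c _ _ _ R ε δ _ G P hH hk1 hPd hP0 hPb hPt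
  obtain ⟨-, -, -, hls, -, -⟩ := hP1A n k c _ _ _ R ε δ _ G k hH
  have hls' := hls k le_rfl
  have hOp : IsOpen (HP (3 * δ)) := isOpen_lt Complex.continuous_re continuous_const
  have hPT := hPT1 n k c _ _ _ R ε δ _ G k hH
  have htau0 : ∀ w ∈ HP (3 * δ), tau b g (GW G) 0 w = 1 := by
    intro w hw
    have := (hLEI n k c _ _ (GW G) (HP (3 * δ)) k hsu.hn hsu.cyc hOp hls').2.1 w hw
    rwa [CYE_tau] at this
  have hsub1 : ball (0 : ℂ) (Real.exp (-(4 * δ))) ⊆ ball 0 (Real.exp (-(3 * δ + δ / 8))) := by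
    refine ball_subset_ball (Real.exp_le_exp.2 ?_)
    linarith
  have hsubw : ∀ w ∈ HP (4 * δ), w ∈ HP (3 * δ + δ / 8) := by
    intro w hw
    have h1 : w.re < -(4 * δ) := hw
    show w.re < -(3 * δ + δ / 8)
    linarith
  have hsubw2 : ∀ w ∈ HP (4 * δ), w ∈ HP (3 * δ + δ / 4) := by
    intro w hw
    have h1 : w.re < -(4 * δ) := hw
    show w.re < -(3 * δ + δ / 4)
    linarith
  refine ⟨G, P, ?_⟩
  refine
    { s1 := ?_
      val := ?_
      ls := ?_
      good := ?_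
      pd := hPd.mono hsub1
      p0 := hP0
      pb := fun u hu => hPb u (hsub1 hu)
      pt := ?_
      pe := ?_ }
  · rw [← hi0]
    exact hsys
  · intro q hq
    have h1 := hsys.val q hq
    rw [h1]
    show b (i + -(q : ZMod k)) = b (i - (q : ZMod k))
    rw [sub_eq_add_neg]
  · exact ⟨(TR_nat k b g i _ _).1 hls'.nat0, hls'.diff, hls'.rel⟩
  · intro w hw q hq
    have hw1 : w.re < -(5 * δ) := hw
    have hw3 : w ∈ HP (3 * δ) := by
      show w.re < -(3 * δ)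
      linarith
    rcases Nat.eq_zero_or_pos q with hq0 | hq0
    · rw [hq0]
      refine ⟨?_, fun h => absurd h (by norm_num)⟩
      rw [htau0 w hw3]
      norm_num
    · have hq1 : 1 ≤ q := hq0
      set t : ℝ := -w.re - 3 * δ with ht
      have ht0 : 2 * δ < t := by
        rw [ht]
        linarith
      have ht1 : 0 < t := by linarith
      obtain ⟨hA, hB, hC⟩ := hPT q hq1 hq w t ht1 (by
        show w.re = -(3 * δ + t)
        rw [ht]
        ring)
      have hsum : ∑ q' ∈ Finset.Icc 1 q, lev n c (fun j => b (i + j)) (fun j => g (i + j)) (GW G) q' w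
          ≤ 1 / 4 := by
        rcases le_total t 1 with h | h
        · refine (hA h).trans ?_
          rw [div_le_iff₀ (by positivity)]
          nlinarith
        · refine (hB h).trans ?_
          have h5 : Real.exp (1 - t) ≤ 1 := Real.exp_le_one_iff.2 (by linarith)
          have h6 : 0 ≤ ε := by
            by_contra hneg
            push Not at hneg
            have h7 : 0 ≤ ∑ q' ∈ Finset.Icc 1 q,
                lev n c (fun j => b (i + j)) (fun j => g (i + j)) (GW G) q' w :=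
              Finset.sum_nonneg fun _ _ => CYE_lev_nonneg _ _ _ _ _ _ _
            have h8 := h7.trans (hB h)
            have h9 := Real.exp_pos (1 - t)
            nlinarith
          nlinarith [Real.exp_pos (1 - t)]
      have hlev : lev n c (fun j => b (i + j)) (fun j => g (i + j)) (GW G) q w ≤
          ∑ q' ∈ Finset.Icc 1 q, lev n c (fun j => b (i + j)) (fun j => g (i + j)) (GW G) q' w :=
        Finset.single_le_sum (f := fun q' => lev n c (fun j => b (i + j)) (fun j => g (i + j))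
          (GW G) q' w) (fun _ _ => CYE_lev_nonneg _ _ _ _ _ _ _) (Finset.mem_Icc.2 ⟨hq1, le_rfl⟩)
      refine ⟨?_, fun _ => ?_⟩
      · rw [← CYE_tau b g i]
        exact hC.trans hsum
      · rw [← CYE_lev n c b g i]
        exact hlev.trans hsum
  · intro w hw
    have h1 := hPt w (hsubw w hw)
    rwa [CYE_tau] at h1
  · intro w hw
    have h1 := hpe w (hsubw2 w hw)
    rw [TR_rho] at h1
    refine ⟨h1.1, ?_⟩
    rw [← h1.2]
    show ψ i _ = ψ (i + 0) _
    rw [add_zero]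

end MZS

end
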